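import Pool.Agent.X237.FS.Wlog

/-!
# Free sides in coverings of relative 2-complexes: local indicability and locally free kernels

Let the space `K` arise from a space with the fundamental group `G₀` by attaching 1-cells `x` (`x`
in `X`) and 2-cells along words `r_e` (`e` in `R`) in the letters `x^{±1}` and the elements of `G₀`;
its fundamental group is `G = (G₀ * F(X)) / ⟨⟨r_e⟩⟩`. For `G₀ = 1` this is a 2-complex with one
vertex, so the theorem covers all connected 2-complexes up to homotopy (contract a maximal tree).
Let `ρ : G → A` be a homomorphism to any group. The 2-cells of the covering belonging to `ρ` are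
the pairs `(e, a)`, its 1-cells outside of the part over the first space are the pairs `(x, a)`.
Suppose that every finite nonempty set of these 2-cells has a free side (`FreeSides`).

(1) Then `G₀` embeds in `G`; if `G₀` is locally indicable, every nontrivial finitely generated
subgroup of `ker ρ` maps onto `ℤ`; if `A` is locally indicable, `G` is locally indicable if and only
if `G₀` is; finitely presented subgroups of `ker ρ` lift isomorphically to subgroups of `G₀ * F(X)`,
and so do the finitely generated ones if `G₀ * F(X)` is equationally Noetherian; for `G₀ = 1` the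
group `ker ρ` is locally free.

(2) Two tests: by levels in an ordered set on which `A` acts (this contains the test by one extremal
corner of every 2-cell), and for relations between positive words, with coefficients in `G₀`, the
graph of whose first (or last) letters has no cycles, if `A` has a left invariant order.

(3) The positive relations with integral weights.

(4) Word labelled oriented trees, with relators `x_i w = w x_j`. One more 2-cell along a generator
gives a simply connected 2-complex, which is contractible by its Euler characteristic if the tree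
is finite; so their complexes are subcomplexes of contractible 2-complexes. If the graph with the
edges `{x_i, first letter of w}`, or the graph with the edges `{last letter of w, x_j}`, has no
cycles, the group is locally indicable and its commutator subgroup is locally free.

The starting result `MP_cf50d6_gt.MetabelianActions` treats labelled oriented graphs (relators
`x_i x_k = x_k x_j`, no coefficients) and local indicability only.
-/

set_option autoImplicit false

namespace Pool.Agent.Results.MP_cf50d6_gt.FreeSidesInCoverings

open Pool.Agent.X237.FS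
open Pool.Agent.TH625.LOG (LocInd surj_of_ne)

variable {G₀ X R A : Type} [Group G₀] [Group A]

/-- The consequences of free sides for `G = Grp r` and `ρ : G → A`: `G₀` embeds in `G`; if `G₀` is
locally indicable, so is `ker ρ`; if `A` is locally indicable, `G` is locally indicable if and only
if `G₀` is; finitely presented subgroups of `ker ρ` lift to `G₀ * F(X)`, and finitely generated ones
too if `G₀ * F(X)` is equationally Noetherian; if `G₀` is trivial, `ker ρ` is locally free. -/
def Consequences (r : R → List (Letter G₀ X)) (ρ : Grp r →* A) : Prop :=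
  Function.Injective (coef r) ∧ (LocInd G₀ → LocInd ρ.ker) ∧
  (LocInd A → (LocInd (Grp r) ↔ LocInd G₀)) ∧
  (∀ H ≤ ρ.ker, Group.IsFinitelyPresented H ∨ (H.FG ∧ EqNoeth (Base G₀ X)) → Lifts (pr r) H) ∧
  (Subsingleton G₀ → LocallyFree ρ.ker)

/-- The level test: `A` acts on a linearly ordered set by monotone maps, the 2-cells `e` have levels
`m e`, and the generators `x` in a set `D` have levels `lam x`, such that the levels of the sides
with generators in `D` of a 2-cell are not below the level of the 2-cell, and every nonempty finite
set of 2-cells of one level has a free side of this level with a generator in `D`. -/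
def LevelTest (r : R → List (Letter G₀ X)) (ρ : Grp r →* A) : Prop :=
  ∃ (Ω : Type) (_ : LinearOrder Ω) (_ : MulAction A Ω) (D : Set X) (lam : X → Ω) (m : R → Ω),
    (∀ (a : A) (p q : Ω), p ≤ q → a • p ≤ a • q) ∧
    (∀ e, ∀ s ∈ sides (ρ.comp (pr r)) 1 (r e), s.1 ∈ D → m e ≤ s.2 • lam s.1) ∧
    ∀ F : Finset (R × A), F.Nonempty →
      (∀ d ∈ F, ∀ d' ∈ F, d.2 • m d.1 = d'.2 • m d'.1) → ∃ d ∈ F, ∃ s : X × A, s.1 ∈ D ∧
        s.2 • lam s.1 = d.2 • m d.1 ∧ IsFree r ρ F d s

/-- The test for positive relations: the relations are `x_e u_e = y_e v_e`, or they are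
`u_e x_e = v_e y_e`, the graph with the edges `{x_e, y_e}` has no cycles, and `A` has a left
invariant order in which the generators and the coefficients of `u_e`, `v_e` are mapped to
elements `≥ 1` and `x_e`, `y_e` to elements `> 1`. -/
def PositiveTest (r : R → List (Letter G₀ X)) (ρ : Grp r →* A) : Prop :=
  ∃ (_ : LinearOrder A) (x y : R → X) (u v : R → List (G₀ ⊕ X)),
    (r = first x y u v ∨ r = last x y u v) ∧ Forest x y ∧
    (∀ a b c : A, b ≤ c → a * b ≤ a * c) ∧ (∀ z, 1 ≤ ρ (pr r (gen G₀ z))) ∧
    (∀ e, 1 < ρ (pr r (gen G₀ (x e))) ∧ 1 < ρ (pr r (gen G₀ (y e)))) ∧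
    ∀ e g, Sum.inl g ∈ u e ∨ Sum.inl g ∈ v e → 1 ≤ ρ (coef r g)

/-- Positive relations with integral weights `ω ≥ 0`: the relations are `x_e u_e = y_e v_e`, or they
are `u_e x_e = v_e y_e`, both sides have the same weight, `x_e` and `y_e` have positive weight, and
the graph with the edges `{x_e, y_e}` has no cycles. -/
def Weighted (r : R → List (Letter G₀ X)) (ω : X → ℤ) : Prop :=
  ∃ (x y : R → X) (u v : R → List (G₀ ⊕ X)),
    (r = first x y u v ∨ r = last x y u v) ∧ Forest x y ∧ (∀ z, 0 ≤ ω z) ∧
    ∀ e, 0 < ω (x e) ∧ 0 < ω (y e) ∧ ω (x e) + wt ω (u e) = ω (y e) + wt ω (v e)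

/-- The consequences for `G = Grp r` of positive relations with the weights `ω`. -/
def WeightedConsequences (r : R → List (Letter G₀ X)) (ω : X → ℤ) : Prop :=
  Function.Injective (coef r) ∧ (LocInd (Grp r) ↔ LocInd G₀) ∧
    ∃ ρ : Grp r →* Multiplicative ℤ, (∀ g, ρ (coef r g) = 1) ∧
      (∀ z, ρ (pr r (gen G₀ z)) = Multiplicative.ofAdd (ω z)) ∧ FreeSides r ρ

theorem result :
    -- (1), (2) free sides: consequences and tests
    (∀ (G₀ X R A : Type) [Group G₀] [Group A] (r : R → List (Letter G₀ X)) (ρ : Grp r →* A),
      (FreeSides r ρ → Consequences r ρ) ∧ (LevelTest r ρ ∨ PositiveTest r ρ → FreeSides r ρ)) ∧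
    -- (3) positive relations with integral weights
    (∀ (G₀ X R : Type) [Group G₀] (r : R → List (Letter G₀ X)) (ω : X → ℤ), Weighted r ω →
      WeightedConsequences r ω) ∧
    -- (4) word labelled oriented graphs
    (∀ (V E : Type) (L : WLOG V E), (L.Connected → ∀ v, L.TrivialAfterKilling v) ∧
      (Forest L.ini L.fst ∨ Forest L.lst L.ter → LocInd L.G ∧ LocallyFree (commutator L.G))) := by
  refine ⟨?_, ?_, ?_⟩
  · intro G₀ X R A _ _ r ρ
    refine ⟨fun h => ⟨coef_injective r ρ h, fun hG => locInd_sub _ (ker_li r ρ h hG),
      li_iff r ρ h, ?_, fun _ => locallyFree_sub _ (ker_locally_free r ρ h)⟩, ?_⟩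
    · rintro H hk (hH | ⟨hH, hB⟩)
      · exact lift_fp r ρ h H hH hk
      · exact lift_fg r ρ h hB H hH hk
    · rintro (⟨Ω, _, _, D, lam, m, hΩ, h1, h2⟩ | ⟨_, x, y, u, v, hr, hF, hA, hX, hxy, hG⟩)
      · exact freeSides_of_levels r ρ hΩ D lam m h1 h2
      · rcases hr with rfl | rfl
        · exact freeSides_first hA x y u v ρ hX hG (fun e => (hxy e).1) (fun e => (hxy e).2) hF
        · exact freeSides_last hA x y u v ρ hX hG (fun e => (hxy e).1) (fun e => (hxy e).2) hF
  · rintro G₀ X R _ r ω ⟨x, y, u, v, hr, hF, hω, h⟩
    obtain ⟨ρ, hρ, hfree⟩ := positive_main ω hω x y u v (fun e => (h e).1) (fun e => (h e).2.1)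
      (fun e => (h e).2.2) hF r hr
    refine ⟨coef_injective r ρ hfree, li_iff r ρ hfree li_int, ρ, ?_, ?_, hfree⟩
    · intro g
      rw [← wtHom_inl (G₀ := G₀) ω g, ← hρ]; rfl
    · intro z
      rw [← wtHom_gen (G₀ := G₀), ← hρ]; rfl
  · intro V E L
    exact ⟨fun hL v g => L.kill hL v g, L.main'⟩

end Pool.Agent.Results.MP_cf50d6_gt.FreeSidesInCoverings
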